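import Pool.Agent.K1H89.Q3.Rec4

/-! # Inert primes, and the main statement -/

set_option autoImplicit false

open scoped NumberTheorySymbols

namespace Pool.Agent.K1H89.Q3

open Pool.Agent.K1H79.Q3

lemma chi_unit {e g : ℕ} {β ε : E} {w : ℤ} (hβ : IsCoprime β.re β.im)
    (oβ : Odd (nm β)) (hw : (nm β : ℤ) ∣ lw w β) (hε : IsUnit ε) : chi e g β w ε = 1 := by
  have h1 : nm ε = 1 := isUnit_iff'.1 hε
  have hc : IsCoprime ε.re ε.im := by
    have h2 := nm_cast ε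
    rw [h1] at h2
    exact ⟨ε.re - ε.im, ε.im, by push_cast at h2; linear_combination -h2⟩
  have ho : Odd (nm ε) := by rw [h1]; exact odd_one
  have h2 := recip (wv := 0) hβ hc oβ ho hw (by rw [h1]; exact one_dvd _)
  rw [h1, jacobiSym.one_right] at h2
  unfold chi psi
  rw [if_pos ho, h1, jacobiSym.one_right, jacobiSym.one_right, Nat.cast_one, jacobiSym.one_left]
  show 1 ^ e * _ * sg (BB β ε) * (J(ε.re + ε.im * w | nm β) * 1) = 1
  rw [one_pow, ite_self]
  linear_combination -h2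

lemma chi_rat {e g p : ℕ} {β : E} {w : ℤ} (oβ : Odd (nm β)) (hp : Odd p) :
    chi e g β w ((p : ℤ) : E) = J(nm β | p) * J(p | g) ^ 2 := by
  have h1 : nm ((p : ℤ) : E) = p ^ 2 := by
    have := nm_int (p : ℤ)
    exact_mod_cast this
  have ho : Odd (nm ((p : ℤ) : E)) := by rw [h1]; exact hp.pow
  have hlw : lw w ((p : ℤ) : E) = p := lw_int w p
  have h2 : J(2 | p ^ 2) = 1 := by
    rw [jacobiSym.pow_right]
    apply jacobiSym.sq_one
    have : Nat.Coprime 2 p := (Nat.coprime_two_left).2 hp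
    exact this
  have h3 : J(-1 | p ^ 2) = 1 := by
    rw [jacobiSym.pow_right]
    apply jacobiSym.sq_one
    simp [Int.gcd]
  have h4 : BB β ((p : ℤ) : E) = ((p % 4 == 3) && (nm β % 4 == 3)) := by
    unfold BB
    rw [re_int, im_int]
    have e1 : r8 (0 : ℤ) = 0 := by unfold r8; rfl
    have e2 : r8 (p : ℤ) = p % 8 := by unfold r8; omega
    have ou : n8 (r8 β.re) (r8 β.im) % 2 = 1 := by
      rw [n8_eq]
      have := Nat.odd_iff.1 oβ
      omega
    rw [e1, e2, chk3 _ (r8_lt _) _ (r8_lt _) (p % 8) (by omega) ou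
      (by have := Nat.odd_iff.1 hp; omega), n8_eq]
    have e3 : p % 8 % 4 = p % 4 := by omega
    have e4 : nm β % 8 % 4 = nm β % 4 := by omega
    rw [e3, e4]
  unfold chi psi
  rw [if_pos ho, hlw, h1, h2, h3, h4, one_pow, ite_self, qr hp oβ, chi4 oβ, Nat.cast_pow,
    jacobiSym.pow_left]
  by_cases c1 : p % 4 = 3
  · rw [if_pos c1, c1]
    have := sg_sq (nm β % 4 == 3)
    show 1 * 1 * sg (nm β % 4 == 3) * (sg (nm β % 4 == 3) * J(nm β | p) * J(p | g) ^ 2) = _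
    linear_combination (J(nm β | p) * J(p | g) ^ 2) * this
  · rw [if_neg c1]
    have : (p % 4 == 3) = false := by simpa using c1
    rw [this]
    simp [sg]

lemma inert_nm {p : ℕ} (hP : Prime ((p : ℤ) : E)) {α : E} (h : (p : ℤ) ∣ (nm α : ℤ)) :
    ((p : ℤ) : E) ∣ α := by
  have h1 : ((p : ℤ) : E) ∣ α * star α := by
    rw [mul_star_nm]
    exact map_dvd (Int.castRingHom E) h
  rcases hP.dvd_or_dvd h1 with h2 | h2
  · exact h2
  · rw [int_dvd_iff] at h2 ⊢
    obtain ⟨h3, h4⟩ := h2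
    have e1 : (star α).im = -α.im := by simp
    have e2 : (star α).re = α.re - α.im := by simp; ring
    rw [e1, dvd_neg] at h4
    rw [e2] at h3
    have h5 := dvd_add h3 h4
    rw [sub_add_cancel] at h5
    exact ⟨h5, h4⟩

lemma nm_rat_mul (a : ℕ) (β : E) : nm (((a : ℤ) : E) * β) = a ^ 2 * nm β := by
  rw [nm_mul]
  congr 1
  have := nm_int (a : ℤ)
  exact_mod_cast this

lemma not_dvd_prim {a : ℤ} (ha : ¬ IsUnit a) {β : E} (hβ : IsCoprime β.re β.im) :
    ¬ (a : E) ∣ β := by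
  intro h
  rw [int_dvd_iff] at h
  exact ha (hβ.isUnit_of_dvd' h.1 h.2)

/-- inert primes -/
theorem isq_inert {e g p : ℕ} {β : E} (hg : g ≠ 0) (hβ : IsCoprime β.re β.im) (hp : p.Prime) (hp2 : p ≠ 2)
    (hP : Prime ((p : ℤ) : E)) {α : E} (hα : α = (((2 ^ e * g : ℕ) : ℤ) : E) * β) :
    (((p : ℤ) : E) ∣ α → J(nm β | p) * J(p | g) ^ 2 = 0) ∧
    (¬ ((p : ℤ) : E) ∣ α → (∃ x : E, ((p : ℤ) : E) ∣ x ^ 2 - α) →
      J(nm β | p) * J(p | g) ^ 2 = 1) ∧
    (¬ ((p : ℤ) : E) ∣ α → (¬ ∃ x : E, ((p : ℤ) : E) ∣ x ^ 2 - α) →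
      J(nm β | p) * J(p | g) ^ 2 = -1) := by
  haveI : Fact p.Prime := ⟨hp⟩
  have hpi : Prime (p : ℤ) := Nat.prime_iff_prime_int.1 hp
  have hnβ : ¬ ((p : ℤ) : E) ∣ β := not_dvd_prim hpi.not_isUnit hβ
  -- `p ∣ α` iff `p ∣ g`
  have hdg : p ∣ 2 ^ e * g → p ∣ g := by
    intro h
    rcases (Nat.Prime.dvd_mul hp).1 h with h1 | h1
    · exact absurd ((Nat.prime_dvd_prime_iff_eq hp Nat.prime_two).1 (hp.dvd_of_dvd_pow h1)) hp2
    · exact h1
  have hcases : ¬ ((p : ℤ) : E) ∣ α → ¬ p ∣ 2 ^ e * g := by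
    intro h h1
    apply h
    rw [hα]
    apply dvd_mul_of_dvd_left
    exact map_dvd (Int.castRingHom E) (Int.natCast_dvd_natCast.2 h1)
  have hval : ¬ ((p : ℤ) : E) ∣ α → J(nm β | p) * J(p | g) ^ 2 = J(nm α | p) := by
    intro h
    have h1 := hcases h
    have h2 : ¬ p ∣ g := fun h3 => h1 (dvd_mul_of_dvd_right h3 _)
    have h3 : J(p | g) ^ 2 = 1 := by
      apply jacobiSym.sq_one
      exact (Nat.Prime.coprime_iff_not_dvd hp).2 h2
    have h4 : J(((2 ^ e * g : ℕ) : ℤ) | p) ^ 2 = 1 := by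
      apply jacobiSym.sq_one
      exact ((Nat.Prime.coprime_iff_not_dvd hp).2 h1).symm
    rw [h3, hα, nm_rat_mul, Nat.cast_mul, jacobiSym.mul_left, Nat.cast_pow, jacobiSym.pow_left, h4]
    ring
  refine ⟨?_, ?_, ?_⟩
  · intro h
    rw [hα] at h
    rcases hP.dvd_or_dvd h with h1 | h1
    · rw [int_dvd_iff, re_int] at h1
      have h2 : p ∣ g := hdg (Int.natCast_dvd_natCast.1 h1.1)
      have h3 : J(p | g) = 0 := jac_zero hg hpi (dvd_refl _) (Int.natCast_dvd_natCast.2 h2)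
      rw [h3]
      ring
    · exact absurd h1 hnβ
  · rintro h ⟨x, y, hy⟩
    rw [hval h]
    have h1 : (p : ℤ) ∣ (nm α : ℤ) - (nm x : ℤ) ^ 2 := by
      have h2 : x * x = α + ((p : ℤ) : E) * y := by linear_combination hy
      have h3 : (nm x : ℤ) ^ 2 = (nm (α + ((p : ℤ) : E) * y) : ℤ) := by
        rw [← h2, nm_mul]
        push_cast
        ring
      rw [h3, nm_cast, nm_cast, QuadraticAlgebra.re_add, QuadraticAlgebra.im_add, int_mul_re,
        int_mul_im]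
      exact ⟨-(2 * α.re * y.re + p * y.re ^ 2 - α.re * y.im - α.im * y.re - p * y.re * y.im
        + 2 * α.im * y.im + p * y.im ^ 2), by ring⟩
    have h2 : (nm α : ℤ) ≡ (nm x : ℤ) ^ 2 [ZMOD (p : ℤ)] := by
      apply Int.ModEq.symm
      exact Int.modEq_iff_dvd.2 h1
    rw [jacobiSym.mod_left' h2]
    apply jacobiSym.sq_one'
    rw [← Int.isCoprime_iff_gcd_eq_one]
    refine ((hpi.coprime_iff_not_dvd).2 ?_).symm
    intro h3
    apply h
    apply inert_nm hP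
    have h4 := dvd_add h1 (dvd_pow h3 (by norm_num : (2 : ℕ) ≠ 0))
    rwa [sub_add_cancel] at h4
  · intro h hx
    rw [hval h]
    have h1 : IsCoprime (nm α : ℤ) (p : ℤ) :=
      ((hpi.coprime_iff_not_dvd).2 fun h3 => h (inert_nm hP h3)).symm
    rcases jacobiSym.eq_one_or_neg_one (Int.isCoprime_iff_gcd_eq_one.1 h1) with h2 | h2
    · exfalso
      obtain ⟨t0, ht0⟩ := ZMod.isSquare_of_jacobiSym_eq_one h2
      obtain ⟨t, rfl⟩ := ZMod.intCast_surjective t0
      have h3 : (p : ℤ) ∣ (nm α : ℤ) - t ^ 2 := by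
        rw [← ZMod.intCast_eq_intCast_iff_dvd_sub, ht0]
        push_cast
        ring
      exact hx (root hp hp2 hP h3 h)
    · exact h2

/-- the character is the quadratic residue symbol -/
theorem isq {e g : ℕ} {β : E} {w : ℤ} (hg : Odd g) (hβ : IsCoprime β.re β.im)
    (oβ : Odd (nm β)) (hw1 : (nm β : ℤ) ∣ lw w β) (hw2 : (nm β : ℤ) ∣ w ^ 2 + w + 1) :
    IsQ ((((2 ^ e * g : ℕ) : ℤ) : E) * β) (fun z => ((chi e g β w z : ℤ) : ℝ)) := by
  have hg0 : g ≠ 0 := by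
    rintro rfl
    exact absurd hg (by decide)
  refine ⟨?_, ?_, ?_, ?_⟩
  · simp only
    rw [chi_unit hβ oβ hw1 isUnit_one, Int.cast_one]
  · intro x y
    simp only
    rw [chi_mul hw2, Int.cast_mul]
  · intro z hz
    simp only
    unfold chi psi
    rw [if_neg hz, zero_mul, Int.cast_zero]
  · intro π hπ hodd
    simp only
    rcases prime_class hπ with ⟨hp, hc⟩ | ⟨p, hp, ε, hε, hπe⟩
    · obtain ⟨v, hv1, hv2⟩ := exists_w hc
      have h1 := chi_split (e := e) hg hβ oβ hw1 hc hodd hv1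
      rw [h1]
      obtain ⟨a1, a2, a3⟩ := isq_split (α := (((2 ^ e * g : ℕ) : ℤ) : E) * β) hp hv1 hv2
      refine ⟨fun h => ?_, fun h h' => ?_, fun h h' => ?_⟩
      · rw [a1 h, Int.cast_zero]
      · rw [a2 h h', Int.cast_one]
      · rw [a3 h h', Int.cast_neg, Int.cast_one]
    · have hass : Associated (((p : ℤ) : E)) π := by
        obtain ⟨u, hu⟩ := hε
        exact ⟨u, by rw [hπe, ← hu, mul_comm]⟩
      have hP : Prime (((p : ℤ) : E)) := hass.prime_iff.2 hπ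
      have hnp : nm (((p : ℤ) : E)) = p ^ 2 := by
        have := nm_int (p : ℤ)
        exact_mod_cast this
      have hpo : Odd p := by
        rw [hπe, nm_mul, hnp, isUnit_iff'.1 hε, one_mul] at hodd
        exact Nat.Odd.of_mul_left (by rwa [sq] at hodd)
      have hp2 : p ≠ 2 := by
        rintro rfl
        exact absurd hpo (by decide)
      have h1 : chi e g β w π = J(nm β | p) * J(p | g) ^ 2 := by
        rw [hπe, chi_mul hw2, chi_unit hβ oβ hw1 hε, chi_rat oβ hpo, one_mul]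
      rw [h1]
      obtain ⟨a1, a2, a3⟩ := isq_inert (e := e) hg0 hβ hp hp2 hP rfl
      have hd : ∀ z : E, π ∣ z ↔ ((p : ℤ) : E) ∣ z := fun z => (hass.dvd_iff_dvd_left).symm
      refine ⟨fun h => ?_, fun h h' => ?_, fun h h' => ?_⟩
      · rw [a1 ((hd _).1 h), Int.cast_zero]
      · rw [a2 (fun h2 => h ((hd _).2 h2)) (by
          obtain ⟨x, hx⟩ := h'
          exact ⟨x, (hd _).1 hx⟩), Int.cast_one]
      · rw [a3 (fun h2 => h ((hd _).2 h2)) (by
          rintro ⟨x, hx⟩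
          exact h' ⟨x, (hd _).2 hx⟩), Int.cast_neg, Int.cast_one]

/-- a common prime factor -/
lemma exists_common {γ : E} {p : ℕ} (hp : p.Prime) (h : p ∣ nm γ)
    (hγ : ¬ ((p : ℤ) : E) ∣ γ) : ∃ π : E, Prime π ∧ π ∣ γ ∧ π ∣ ((p : ℤ) : E) := by
  by_contra hcon
  push Not at hcon
  have hp0 : ((p : ℤ) : E) ≠ 0 := by
    intro h0
    have := nm_int (p : ℤ)
    rw [h0, nm_zero] at this
    have h1 : (p : ℤ) ^ 2 ≠ 0 := pow_ne_zero 2 (by exact_mod_cast hp.ne_zero)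
    exact h1 this.symm
  have h1 : IsCoprime γ ((p : ℤ) : E) := isCoprime_of_prime_dvd (fun h => hp0 h.2) hcon
  have h2 : ((p : ℤ) : E) ∣ γ * star γ := by
    rw [mul_star_nm]
    exact map_dvd (Int.castRingHom E) (Int.natCast_dvd_natCast.2 h)
  have h3 := h1.symm.dvd_of_dvd_mul_left h2
  apply hγ
  rw [int_dvd_iff] at h3 ⊢
  obtain ⟨h3, h4⟩ := h3
  have e1 : (star γ).im = -γ.im := by simp
  have e2 : (star γ).re = γ.re - γ.im := by simp; ring
  rw [e1, dvd_neg] at h4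
  rw [e2] at h3
  have h5 := dvd_add h3 h4
  rw [sub_add_cancel] at h5
  exact ⟨h5, h4⟩

lemma nm_rat (p : ℕ) : nm (((p : ℤ) : E)) = p ^ 2 := by
  have := nm_int (p : ℤ)
  exact_mod_cast this

/-- the norm of a common prime factor -/
lemma nm_common {β π : E} {p : ℕ} (hβ : IsCoprime β.re β.im) (hp : p.Prime) (hπ : Prime π)
    (h1 : π ∣ β) (h2 : π ∣ ((p : ℤ) : E)) : nm π = p := by
  obtain ⟨c, hc⟩ := h2
  have h3 : nm π * nm c = p ^ 2 := by rw [← nm_mul, ← hc, nm_rat]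
  rcases prime_class hπ with ⟨hq, -⟩ | ⟨q, hq, ε, hε, hπe⟩
  · have h4 : nm π ∣ p ^ 2 := ⟨nm c, h3.symm⟩
    exact (Nat.prime_dvd_prime_iff_eq hq hp).1 (hq.dvd_of_dvd_pow h4)
  · exfalso
    refine not_dvd_prim (Nat.prime_iff_prime_int.1 hq).not_isUnit hβ ?_
    exact dvd_trans ⟨ε, by rw [hπe, mul_comm]⟩ h1

theorem t_REC : S_REC := by
  intro α hα
  have hα0 : α ≠ 0 := hα.ne_zero
  obtain ⟨c, hc⟩ : ∃ c, c = Int.gcd α.re α.im := ⟨_, rfl⟩
  have hc0 : c ≠ 0 := by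
    rw [hc]
    intro h
    obtain ⟨h1, h2⟩ := Int.gcd_eq_zero_iff.1 h
    exact hα0 (QuadraticAlgebra.ext h1 h2)
  obtain ⟨e, g, hg, hcg⟩ := Nat.exists_eq_two_pow_mul_odd hc0
  obtain ⟨b1, b2, hb, hb1, hb2⟩ : ∃ b1 b2 : ℤ, IsCoprime b1 b2 ∧ α.re = c * b1 ∧ α.im = c * b2 := by
    obtain ⟨b1, b2, h1, h2, h3⟩ := Int.exists_gcd_one (m := α.re) (n := α.im)
      (Nat.pos_of_ne_zero (hc ▸ hc0))
    exact ⟨b1, b2, Int.isCoprime_iff_gcd_eq_one.2 h1, by rw [hc, mul_comm]; exact h2,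
      by rw [hc, mul_comm]; exact h3⟩
  obtain ⟨β, hβ⟩ : ∃ β : E, β = ⟨b1, b2⟩ := ⟨_, rfl⟩
  have hβc : IsCoprime β.re β.im := by rw [hβ]; exact hb
  have hαβ : α = (((2 ^ e * g : ℕ) : ℤ) : E) * β := by
    rw [← hcg]
    apply QuadraticAlgebra.ext
    · rw [int_mul_re, hβ]
      exact hb1
    · rw [int_mul_im, hβ]
      exact hb2
  -- squarefreeness
  have hsq : ∀ z : E, z * z ∣ α → nm z = 1 := fun z hz => isUnit_iff'.1 (hα z hz)
  have hdc : ∀ (z : E) (a : ℕ), z ∣ ((a : ℤ) : E) → a ∣ 2 ^ e * g → z ∣ α := by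
    intro z a h1 h2
    rw [hαβ]
    exact dvd_mul_of_dvd_left (h1.trans (map_dvd (Int.castRingHom E)
      (Int.natCast_dvd_natCast.2 h2))) _
  have he : e ≤ 1 := by
    by_contra hcon
    have h1 : ((2 : ℕ) : ℤ) * ((2 : ℕ) : ℤ) = ((4 : ℕ) : ℤ) := by norm_num
    have h2 := hsq (((2 : ℕ) : ℤ) : E) (hdc _ 4 (by rw [← Int.cast_mul, h1]) (by
      apply dvd_mul_of_dvd_left
      exact pow_dvd_pow 2 (show 2 ≤ e by omega)))
    rw [nm_rat] at h2
    norm_num at h2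
  have hgsq : ∀ p : ℕ, p.Prime → ¬ p * p ∣ g := by
    intro p hp h
    have h2 := hsq ((p : ℤ) : E) (hdc _ (p * p) (by push_cast; exact dvd_refl _)
      (dvd_mul_of_dvd_right h _))
    rw [nm_rat] at h2
    have := hp.one_lt
    nlinarith
  have h3g : ¬ 3 ∣ g := by
    intro h
    have h1 : (⟨1, -1⟩ : E) * ⟨1, -1⟩ ∣ (((3 : ℕ) : ℤ) : E) := by
      refine ⟨⟨1, 1⟩, ?_⟩
      apply QuadraticAlgebra.ext
      · rw [re_int, QuadraticAlgebra.re_mul, QuadraticAlgebra.re_mul, QuadraticAlgebra.im_mul]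
        norm_num
      · rw [im_int, QuadraticAlgebra.im_mul, QuadraticAlgebra.re_mul, QuadraticAlgebra.im_mul]
        norm_num
    have h2 := hsq _ (hdc _ 3 h1 (dvd_mul_of_dvd_right h _))
    have h3 := nm_cast (⟨1, -1⟩ : E)
    rw [h2] at h3
    norm_num at h3
  have oβ : Odd (nm β) := by
    rw [← Nat.not_even_iff_odd, even_iff_two_dvd]
    intro h
    have h1 : (2 : ℤ) ∣ (nm β : ℤ) := by exact_mod_cast h
    rw [nm_cast] at h1
    have h2 : (2 : ℤ) ∣ β.re ∧ (2 : ℤ) ∣ β.im := by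
      rcases Int.even_or_odd' β.re with ⟨s, hs | hs⟩ <;>
        rcases Int.even_or_odd' β.im with ⟨t, ht | ht⟩
      · exact ⟨⟨s, hs⟩, ⟨t, ht⟩⟩
      · exfalso
        rw [hs, ht] at h1
        have e1 : (2 * s) ^ 2 - 2 * s * (2 * t + 1) + (2 * t + 1) ^ 2
          = 2 * (2 * s ^ 2 - s * (2 * t + 1) + 2 * t ^ 2 + 2 * t) + 1 := by ring
        rw [e1] at h1
        omega
      · exfalso
        rw [hs, ht] at h1
        have e1 : (2 * s + 1) ^ 2 - (2 * s + 1) * (2 * t) + (2 * t) ^ 2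
          = 2 * (2 * s ^ 2 + 2 * s - (2 * s + 1) * t + 2 * t ^ 2) + 1 := by ring
        rw [e1] at h1
        omega
      · exfalso
        rw [hs, ht] at h1
        have e1 : (2 * s + 1) ^ 2 - (2 * s + 1) * (2 * t + 1) + (2 * t + 1) ^ 2
          = 2 * (2 * s ^ 2 + s - 2 * s * t + 2 * t ^ 2 + t) + 1 := by ring
        rw [e1] at h1
        omega
    have h3 := hβc.isUnit_of_dvd' h2.1 h2.2
    exact absurd h3 (by decide)
  have hgood : Good (nm β) g := by
    refine ⟨oβ, hg, ?_, h3g⟩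
    rw [Nat.squarefree_iff_prime_squarefree]
    intro p hp h
    by_cases hpM : p ∣ nm β
    · have hpβ : ¬ ((p : ℤ) : E) ∣ β := not_dvd_prim (Nat.prime_iff_prime_int.1 hp).not_isUnit hβc
      obtain ⟨π, hπ, h1, h2⟩ := exists_common hp hpM hpβ
      have h3 := nm_common hβc hp hπ h1 h2
      have hpi1 : nm π ≠ 1 := by rw [h3]; exact hp.one_lt.ne'
      by_cases hpg : p ∣ g
      · apply hpi1
        apply hsq
        rw [hαβ]
        apply mul_dvd_mul _ h1
        exact h2.trans (map_dvd (Int.castRingHom E) (Int.natCast_dvd_natCast.2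
          (dvd_mul_of_dvd_right hpg _)))
      · have h4 : p * p ∣ nm β := by
          have h5 : Nat.Coprime (p * p) g := by
            rw [Nat.coprime_mul_iff_left]
            exact ⟨(Nat.Prime.coprime_iff_not_dvd hp).2 hpg,
              (Nat.Prime.coprime_iff_not_dvd hp).2 hpg⟩
          exact h5.dvd_of_dvd_mul_right h
        obtain ⟨γ, hγ⟩ := h1
        have h5 : p ∣ nm γ := by
          rw [hγ, nm_mul, h3] at h4
          exact Nat.dvd_of_mul_dvd_mul_left hp.pos h4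
        have hpγ : ¬ ((p : ℤ) : E) ∣ γ := fun h6 => hpβ (h6.trans ⟨π, by rw [hγ, mul_comm]⟩)
        obtain ⟨π2, hπ2, k1, k2⟩ := exists_common hp h5 hpγ
        have k3 := nm_common hβc hp hπ2 (k1.trans ⟨π, by rw [hγ, mul_comm]⟩) k2
        have h6 : ((p : ℤ) : E) = π * star π := by rw [mul_star_nm, h3]
        rw [h6] at k2
        rcases hπ2.dvd_or_dvd k2 with k4 | k4
        · have k5 : Associated π2 π := hπ2.associated_of_dvd hπ k4
          apply hpi1
          apply hsq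
          rw [hαβ, hγ]
          apply dvd_mul_of_dvd_right
          exact mul_dvd_mul_left _ (k5.symm.dvd.trans k1)
        · obtain ⟨d, hd⟩ := k4
          have k5 : nm (star π) = nm π := by
            rw [nm, QuadraticAlgebra.norm_star]; rfl
          have k6 : nm d = 1 := by
            rw [hd, nm_mul, k3, h3] at k5
            exact Nat.eq_of_mul_eq_mul_left hp.pos (by rw [k5, mul_one])
          have k7 : Associated π2 (star π) := by
            obtain ⟨u, hu⟩ := isUnit_iff'.2 k6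
            exact ⟨u, by rw [hu, ← hd]⟩
          apply hpβ
          rw [h6, hγ]
          exact mul_dvd_mul_left _ (k7.symm.dvd.trans k1)
    · have h5 : Nat.Coprime (p * p) (nm β) := by
        rw [Nat.coprime_mul_iff_left]
        exact ⟨(Nat.Prime.coprime_iff_not_dvd hp).2 hpM, (Nat.Prime.coprime_iff_not_dvd hp).2 hpM⟩
      exact hgsq p hp (h5.dvd_of_dvd_mul_left h)
  obtain ⟨w, hw1, hw2⟩ := exists_w hβc
  refine ⟨nm β * g ^ 2, fun z => ((chi e g β w z : ℤ) : ℝ), ?_, per_chi hw2 hgood, ?_, ?_, ?_⟩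
  · have := isq (e := e) hg hβc oβ hw1 hw2
    rwa [← hαβ] at this
  · have h1 := oβ.pos
    have h2 := hg.pos
    exact Nat.mul_pos h1 (pow_pos h2 2)
  · rw [hαβ, nm_rat_mul]
    have h1 : 1 ≤ 2 ^ e := Nat.one_le_two_pow
    calc nm β * g ^ 2 = (1 * g) ^ 2 * nm β := by ring
      _ ≤ (2 ^ e * g) ^ 2 * nm β := by gcongr
  · rw [hαβ, nm_rat_mul]
    have h1 : 2 ^ e ≤ 2 := by
      calc 2 ^ e ≤ 2 ^ 1 := Nat.pow_le_pow_right (by norm_num) he
        _ = 2 := by norm_num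
    calc (2 ^ e * g) ^ 2 * nm β ≤ (2 * g) ^ 2 * nm β := by gcongr
      _ = 4 * (nm β * g ^ 2) := by ring

end Pool.Agent.K1H89.Q3
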