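import Pool.Agent.K1H79.Q3.StmA

/-! # Quadratic reciprocity in `ℤ[ω]`: the rational part -/

set_option autoImplicit false

open scoped NumberTheorySymbols

namespace Pool.Agent.K1H89.Q3

open Pool.Agent.K1H79.Q3

/-- sign -/
def sg (b : Bool) : ℤ := if b then -1 else 1

lemma sg_xor (a b : Bool) : sg (xor a b) = sg a * sg b := by cases a <;> cases b <;> rfl

lemma sg_sq (a : Bool) : sg a * sg a = 1 := by cases a <;> rfl

/-- the norm modulo `8` -/
def n8 (x y : ℕ) : ℕ := (x * x + 7 * (x * y) + y * y) % 8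

def s4 (y n : ℕ) : Bool := (y % 4 == 3) && (n % 4 == 3)

def c8 (n : ℕ) : Bool := !(n % 8 == 1 || n % 8 == 7)

/-- the symbol `(y | N(x + y ω))` as a function of residues modulo `8` -/
def e8N (x y : ℕ) : Bool :=
  if y % 2 = 1 then s4 y (n8 x y)
  else if y % 4 = 2 then xor (c8 (n8 x y)) (s4 (y / 2) (n8 x y)) else false

def r8 (x : ℤ) : ℕ := (x % 8).toNat

lemma r8_lt (x : ℤ) : r8 x < 8 := by
  unfold r8
  omega

lemma r8_cast (x : ℤ) : ((r8 x : ℕ) : ℤ) = x % 8 := by
  unfold r8
  omega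

lemma r8_dvd (x : ℤ) : ∃ k : ℤ, x = r8 x + 8 * k := ⟨x / 8, by rw [r8_cast]; omega⟩

lemma n8_eq (z : E) : n8 (r8 z.re) (r8 z.im) = nm z % 8 := by
  obtain ⟨k, hk⟩ := r8_dvd z.re
  obtain ⟨l, hl⟩ := r8_dvd z.im
  obtain ⟨x, hx⟩ : ∃ x, x = r8 z.re := ⟨_, rfl⟩
  obtain ⟨y, hy⟩ : ∃ y, y = r8 z.im := ⟨_, rfl⟩
  rw [← hx] at hk ⊢
  rw [← hy] at hl ⊢
  have h1 := nm_cast z
  unfold n8
  have h2 : ((x * x + 7 * (x * y) + y * y : ℕ) : ℤ) = (nm z : ℤ) + 8 * (x * y - 2 * x * k - 8 * k * k
      + x * l + y * k + 8 * k * l - 2 * y * l - 8 * l * l) := by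
    rw [h1, hk, hl]
    push_cast
    ring
  omega

lemma jac_odd (Y : ℤ) (n : ℕ) (hn : Odd n) (hY : Y % 2 = 1) :
    J(Y | n) = sg (s4 (r8 Y) n) * J(n | Y.natAbs) := by
  obtain ⟨m, hm⟩ : ∃ m, m = Y.natAbs := ⟨_, rfl⟩
  have hn2 : n % 2 = 1 := Nat.odd_iff.1 hn
  have hm2 : m % 2 = 1 := by omega
  rw [← hm]
  have hq := jacobiSym.quadratic_reciprocity_if hm2 hn2
  have hr := r8_cast Y
  rcases Int.natAbs_eq Y with h | h
  · rw [← hm] at h
    have h1 : J(Y | n) = J(m | n) := by rw [h]
    rw [h1, ← hq]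
    by_cases c : m % 4 = 3 ∧ n % 4 = 3
    · rw [if_pos c]
      have : s4 (r8 Y) n = true := by
        unfold s4
        have : r8 Y % 4 = 3 := by omega
        rw [this, c.2]
        rfl
      rw [this]
      simp [sg]
    · rw [if_neg c]
      have : s4 (r8 Y) n = false := by
        unfold s4
        rw [Bool.and_eq_false_iff]
        by_cases h3 : n % 4 = 3
        · left
          have : r8 Y % 4 ≠ 3 := by
            intro h4
            exact c ⟨by omega, h3⟩
          simpa using this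
        · right
          simpa using h3
      rw [this]
      simp [sg]
  · rw [← hm] at h
    have h1 : J(Y | n) = ZMod.χ₄ n * J(m | n) := by rw [h, jacobiSym.neg _ hn]
    rw [h1, ← hq]
    rcases (by omega : n % 4 = 1 ∨ n % 4 = 3) with h3 | h3
    · have : s4 (r8 Y) n = false := by
        unfold s4
        rw [h3]
        simp
      rw [this, ZMod.χ₄_nat_one_mod_four h3, if_neg (by omega)]
      simp [sg]
    · rw [ZMod.χ₄_nat_three_mod_four h3]
      rcases (by omega : m % 4 = 1 ∨ m % 4 = 3) with h4 | h4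
      · have : s4 (r8 Y) n = true := by
          unfold s4
          have : r8 Y % 4 = 3 := by omega
          rw [this, h3]
          rfl
        rw [this, if_neg (by omega)]
        simp [sg]
      · have : s4 (r8 Y) n = false := by
          unfold s4
          have : r8 Y % 4 = 1 := by omega
          rw [this]
          rfl
        rw [this, if_pos ⟨h4, h3⟩]
        simp [sg]

lemma jac_sq (X Y : ℤ) (n : ℕ) (h : IsCoprime X Y) (hd : Y ∣ (n : ℤ) - X ^ 2) :
    J(n | Y.natAbs) = 1 := by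
  have h1 : J(n | Y.natAbs) = J(X ^ 2 | Y.natAbs) := by
    have h2 : (X ^ 2 : ℤ) ≡ n [ZMOD (Y.natAbs : ℤ)] := Int.modEq_iff_dvd.2 (Int.natAbs_dvd.2 hd)
    exact jacobiSym.mod_left' h2.symm
  rw [h1]
  apply jacobiSym.sq_one'
  have h3 := Int.isCoprime_iff_gcd_eq_one.1 h
  show Nat.gcd X.natAbs ((Y.natAbs : ℤ)).natAbs = 1
  rw [Int.natAbs_natCast]
  exact h3

lemma jac_one (n : ℕ) (hn : n % 8 = 1) : ∀ (k : ℕ) (X Z : ℤ), Z.natAbs = k → IsCoprime X Z →
    Z ∣ (n : ℤ) - X ^ 2 → J(Z | n) = 1 := by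
  intro k
  induction k using Nat.strong_induction_on with
  | _ k ih =>
    intro X Z hk hc hd
    by_cases h0 : Z = 0
    · rw [h0] at hc hd ⊢
      have h1 : (n : ℤ) = X ^ 2 := by
        have := zero_dvd_iff.1 hd
        linarith
      have h2 : IsUnit X := isCoprime_zero_right.1 hc
      have h3 : X ^ 2 = 1 := by
        rcases Int.isUnit_iff.1 h2 with h | h <;> rw [h] <;> norm_num
      have h4 : n = 1 := by
        rw [h3] at h1
        exact_mod_cast h1
      rw [h4, jacobiSym.one_right]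
    rcases (by omega : Z % 2 = 1 ∨ Z % 2 = 0) with h1 | h1
    · rw [jac_odd Z n (Nat.odd_iff.2 (by omega)) h1, jac_sq X Z n hc hd]
      have : s4 (r8 Z) n = false := by
        unfold s4
        have : n % 4 = 1 := by omega
        rw [this]
        simp
      rw [this]
      rfl
    · rw [← jacobiSym.even_odd h1 (by omega), if_neg (by omega)]
      obtain ⟨W, hW⟩ : ∃ W, Z = 2 * W := ⟨Z / 2, by omega⟩
      have h2 : Z / 2 = W := by omega
      rw [h2]
      refine ih W.natAbs (by omega) X W rfl ?_ ?_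
      · rw [hW] at hc
        exact hc.of_mul_right_right
      · rw [hW] at hd
        exact dvd_trans (dvd_mul_left _ _) hd

/-- the symbol `(Y | N(X + Y ω))` -/
theorem jac_e8 (z : E) (hc : IsCoprime z.re z.im) (ho : Odd (nm z)) :
    J(z.im | nm z) = sg (e8N (r8 z.re) (r8 z.im)) := by
  obtain ⟨X, hX⟩ : ∃ X, X = z.re := ⟨_, rfl⟩
  obtain ⟨Y, hY⟩ : ∃ Y, Y = z.im := ⟨_, rfl⟩
  obtain ⟨n, hn⟩ : ∃ n, n = nm z := ⟨_, rfl⟩
  have h8 := n8_eq z
  have hnc := nm_cast z
  rw [← hX, ← hY] at hc hnc h8 ⊢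
  rw [← hn] at h8 ho hnc ⊢
  have hn2 : n % 2 = 1 := Nat.odd_iff.1 ho
  have hd : Y ∣ (n : ℤ) - X ^ 2 := ⟨Y - X, by rw [hnc]; ring⟩
  have hrY := r8_cast Y
  unfold e8N
  rw [h8]
  rcases (by omega : Y % 2 = 1 ∨ Y % 2 = 0) with h1 | h1
  · rw [jac_odd Y n ho h1, jac_sq X Y n hc hd, if_pos (by omega), mul_one]
    congr 1
    unfold s4
    congr 2
    omega
  · rw [if_neg (by omega)]
    rcases (by omega : Y % 4 = 2 ∨ Y % 4 = 0) with h2 | h2
    · rw [if_pos (by omega), ← jacobiSym.even_odd h1 hn2]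
      obtain ⟨W, hW⟩ : ∃ W, Y = 2 * W := ⟨Y / 2, by omega⟩
      have h3 : Y / 2 = W := by omega
      have hcW : IsCoprime X W := by
        rw [hW] at hc
        exact hc.of_mul_right_right
      have hdW : W ∣ (n : ℤ) - X ^ 2 := by
        rw [hW] at hd
        exact dvd_trans (dvd_mul_left _ _) hd
      rw [h3, jac_odd W n ho (by omega), jac_sq X W n hcW hdW, mul_one, sg_xor]
      have h4 : s4 (r8 W) n = s4 (r8 Y / 2) (n % 8) := by
        have hrW := r8_cast W
        unfold s4
        have e1 : r8 W % 4 = r8 Y / 2 % 4 := by omega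
        have e2 : n % 8 % 4 = n % 4 := by omega
        rw [e1, e2]
      rw [h4]
      by_cases h5 : n % 8 = 3 ∨ n % 8 = 5
      · have h6 : c8 (n % 8) = true := by
          unfold c8
          rcases h5 with h | h <;> rw [h] <;> rfl
        rw [if_pos h5, h6]
        cases s4 (r8 Y / 2) (n % 8) <;> rfl
      · have h6 : c8 (n % 8) = false := by
          unfold c8
          rcases (by omega : n % 8 = 1 ∨ n % 8 = 7) with h | h <;> rw [h] <;> rfl
        rw [if_neg h5, h6]
        simp [sg]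
    · rw [if_neg (by omega)]
      show J(Y | n) = 1
      have hXodd : X % 2 = 1 := by
        rcases (by omega : X % 2 = 1 ∨ X % 2 = 0) with h | h
        · exact h
        · exfalso
          have h3 : (2 : ℤ) ∣ 1 := by
            obtain ⟨u, v, huv⟩ := hc
            rw [← huv]
            exact dvd_add (dvd_mul_of_dvd_right (by omega) _) (dvd_mul_of_dvd_right (by omega) _)
          omega
      obtain ⟨W, hW⟩ : ∃ W, Y = 4 * W := ⟨Y / 4, by omega⟩
      obtain ⟨V, hV⟩ : ∃ V, X = 2 * V + 1 := ⟨X / 2, by omega⟩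
      have hVV : (2 : ℤ) ∣ V * (V + 1) := by
        rcases Int.even_or_odd V with ⟨t, ht⟩ | ⟨t, ht⟩
        · exact ⟨t * (V + 1), by rw [ht]; ring⟩
        · exact ⟨V * (t + 1), by rw [ht]; ring⟩
      obtain ⟨t, ht⟩ := hVV
      have hn8 : (n : ℤ) = 1 + 8 * t - 4 * (X * W) + 16 * W ^ 2 := by
        rw [hnc, hW]
        have : X ^ 2 = 1 + 4 * (V * (V + 1)) := by rw [hV]; ring
        rw [this, ht]
        ring
      rcases (by omega : W % 2 = 1 ∨ W % 2 = 0) with h3 | h3
      · have h4 : J(Y | n) = J(W | n) := by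
          rw [← jacobiSym.div_four_left h2 hn2]
          congr 1
          omega
        have hcW : IsCoprime X W := by
          rw [hW] at hc
          exact hc.of_mul_right_right
        have hdW : W ∣ (n : ℤ) - X ^ 2 := by
          rw [hW] at hd
          exact dvd_trans (dvd_mul_left _ _) hd
        rw [h4, jac_odd W n ho h3, jac_sq X W n hcW hdW]
        have h5 : n % 4 = 1 := by
          have : (n : ℤ) % 4 = 1 := by
            rw [hn8]
            generalize X * W = q
            generalize W ^ 2 = q'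
            omega
          omega
        have : s4 (r8 W) n = false := by
          unfold s4
          rw [h5]
          simp
        rw [this]
        rfl
      · refine jac_one n ?_ _ X Y rfl hc hd
        obtain ⟨U, hU⟩ : ∃ U, W = 2 * U := ⟨W / 2, by omega⟩
        have : (n : ℤ) % 8 = 1 := by
          rw [hn8, hU]
          have e1 : 1 + 8 * t - 4 * (X * (2 * U)) + 16 * (2 * U) ^ 2
              = 1 + 8 * (t - X * U + 8 * U ^ 2) := by ring
          rw [e1]
          generalize t - X * U + 8 * U ^ 2 = q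
          omega
        omega

end Pool.Agent.K1H89.Q3
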