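import Pool.Agent.K1H89.Q3.Rec1

/-! # Quadratic reciprocity in `ℤ[ω]` for primitive elements -/

set_option autoImplicit false

open scoped NumberTheorySymbols

namespace Pool.Agent.K1H89.Q3

open Pool.Agent.K1H79.Q3

/-- multiplication modulo `4` -/
def m4 (a b x y : ℕ) : ℕ × ℕ := ((a * x + 3 * (b * y)) % 4, (a * y + b * x + 3 * (b * y)) % 4)

/-- `(z³ - 1) / 2` modulo `2` -/
def tt (x y : ℕ) : ℕ × ℕ :=
  ((m4 (m4 x y x y).1 (m4 x y x y).2 x y).1 / 2, (m4 (m4 x y x y).1 (m4 x y x y).2 x y).2 / 2)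

/-- the quadratic symbol at `2` of two units -/
def bb (a b x y : ℕ) : Bool :=
  ((tt a b).1 * (tt x y).2 + (tt a b).2 * (tt x y).1 + (tt a b).2 * (tt x y).2) % 2 == 1

set_option synthInstance.maxSize 5000 in
theorem chk1 : ∀ a < 8, ∀ b < 8, ∀ x < 8, ∀ y < 8, n8 a b % 2 = 1 → n8 x y % 2 = 1 →
    xor (xor (e8N ((a * x + b * y + 7 * (b * x)) % 8) ((a * y + 7 * (b * x)) % 8)) (e8N a b))
      (xor (e8N x y) (n8 a b % 4 == 3)) = bb a b x y := by decide +kernel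

set_option synthInstance.maxSize 5000 in
theorem chk2 : ∀ x < 8, ∀ y < 8, ∀ x' < 8, ∀ y' < 8, n8 x y % 2 = 1 → n8 x' y' % 2 = 1 →
    (tt ((x * x' + 7 * (y * y')) % 8) ((x * y' + y * x' + 7 * (y * y')) % 8)).1 % 2
      = ((tt x y).1 + (tt x' y').1) % 2 ∧
    (tt ((x * x' + 7 * (y * y')) % 8) ((x * y' + y * x' + 7 * (y * y')) % 8)).2 % 2
      = ((tt x y).2 + (tt x' y').2) % 2 := by decide +kernel

/-- rational numbers -/
theorem chk3 : ∀ a < 8, ∀ b < 8, ∀ p < 8, n8 a b % 2 = 1 → p % 2 = 1 →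
    bb a b p 0 = ((p % 4 == 3) && (n8 a b % 4 == 3)) := by decide +kernel

/-- the symbol at `2` of two elements -/
def BB (u v : E) : Bool := bb (r8 u.re) (r8 u.im) (r8 v.re) (r8 v.im)

lemma r8_of {z : ℤ} {n : ℕ} (h : ∃ k : ℤ, z = n + 8 * k) : r8 z = n % 8 := by
  obtain ⟨k, hk⟩ := h
  have := r8_cast z
  omega

lemma BB_mul (u v w : E) (hv : Odd (nm v)) (hw : Odd (nm w)) :
    BB u (v * w) = xor (BB u v) (BB u w) := by
  obtain ⟨k, hk⟩ := r8_dvd v.re
  obtain ⟨l, hl⟩ := r8_dvd v.im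
  obtain ⟨k', hk'⟩ := r8_dvd w.re
  obtain ⟨l', hl'⟩ := r8_dvd w.im
  have e1 : r8 (v * w).re = (r8 v.re * r8 w.re + 7 * (r8 v.im * r8 w.im)) % 8 := by
    apply r8_of
    refine ⟨r8 v.re * k' + k * r8 w.re + 8 * k * k' - r8 v.im * r8 w.im - r8 v.im * l'
      - l * r8 w.im - 8 * l * l', ?_⟩
    rw [QuadraticAlgebra.re_mul]
    push_cast
    conv_lhs => rw [hk, hl, hk', hl']
    ring
  have e2 : r8 (v * w).im = (r8 v.re * r8 w.im + r8 v.im * r8 w.re
      + 7 * (r8 v.im * r8 w.im)) % 8 := by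
    apply r8_of
    refine ⟨r8 v.re * l' + k * r8 w.im + 8 * k * l' + r8 v.im * k' + l * r8 w.re + 8 * l * k'
      - r8 v.im * r8 w.im - r8 v.im * l' - l * r8 w.im - 8 * l * l', ?_⟩
    rw [QuadraticAlgebra.im_mul]
    push_cast
    conv_lhs => rw [hk, hl, hk', hl']
    ring
  have ov : n8 (r8 v.re) (r8 v.im) % 2 = 1 := by
    rw [n8_eq]
    have := Nat.odd_iff.1 hv
    omega
  have ow : n8 (r8 w.re) (r8 w.im) % 2 = 1 := by
    rw [n8_eq]
    have := Nat.odd_iff.1 hw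
    omega
  obtain ⟨f1, f2⟩ := chk2 _ (r8_lt v.re) _ (r8_lt v.im) _ (r8_lt w.re) _ (r8_lt w.im) ov ow
  unfold BB bb
  rw [e1, e2]
  generalize tt ((r8 v.re * r8 w.re + 7 * (r8 v.im * r8 w.im)) % 8)
    ((r8 v.re * r8 w.im + r8 v.im * r8 w.re + 7 * (r8 v.im * r8 w.im)) % 8) = t at f1 f2 ⊢
  generalize tt (r8 v.re) (r8 v.im) = t1 at f1 f2 ⊢
  generalize tt (r8 w.re) (r8 w.im) = t2 at f1 f2 ⊢
  generalize tt (r8 u.re) (r8 u.im) = s
  have key : (s.1 * t.2 + s.2 * t.1 + s.2 * t.2) % 2 = ((s.1 * t1.2 + s.2 * t1.1 + s.2 * t1.2)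
      + (s.1 * t2.2 + s.2 * t2.1 + s.2 * t2.2)) % 2 := by
    have g1 : t.1 ≡ t1.1 + t2.1 [MOD 2] := f1
    have g2 : t.2 ≡ t1.2 + t2.2 [MOD 2] := f2
    have g3 : s.1 * t.2 + s.2 * t.1 + s.2 * t.2 ≡ s.1 * (t1.2 + t2.2) + s.2 * (t1.1 + t2.1)
        + s.2 * (t1.2 + t2.2) [MOD 2] :=
      ((g2.mul_left _).add (g1.mul_left _)).add (g2.mul_left _)
    rw [show (s.1 * t1.2 + s.2 * t1.1 + s.2 * t1.2) + (s.1 * t2.2 + s.2 * t2.1 + s.2 * t2.2)
      = s.1 * (t1.2 + t2.2) + s.2 * (t1.1 + t2.1) + s.2 * (t1.2 + t2.2) by ring]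
    exact g3
  rw [key]
  generalize (s.1 * t1.2 + s.2 * t1.1 + s.2 * t1.2) = x
  generalize (s.1 * t2.2 + s.2 * t2.1 + s.2 * t2.2) = y
  rcases (by omega : x % 2 = 0 ∨ x % 2 = 1) with h1 | h1 <;>
    rcases (by omega : y % 2 = 0 ∨ y % 2 = 1) with h2 | h2
  · have : (x + y) % 2 = 0 := by omega
    rw [this, h1, h2]; rfl
  · have : (x + y) % 2 = 1 := by omega
    rw [this, h1, h2]; rfl
  · have : (x + y) % 2 = 1 := by omega
    rw [this, h1, h2]; rfl
  · have : (x + y) % 2 = 0 := by omega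
    rw [this, h1, h2]; rfl

/-- the product `ū v` -/
def cj (u v : E) : E := ⟨u.re * v.re + u.im * v.im - u.im * v.re, u.re * v.im - u.im * v.re⟩

lemma nm_cj (u v : E) : nm (cj u v) = nm u * nm v := by
  have h : ((nm (cj u v) : ℕ) : ℤ) = ((nm u * nm v : ℕ) : ℤ) := by
    rw [Nat.cast_mul, nm_cast, nm_cast, nm_cast]
    unfold cj
    simp only
    ring
  exact_mod_cast h

lemma e8_cj (u v : E) (hu : Odd (nm u)) (hv : Odd (nm v)) :
    sg (e8N (r8 (cj u v).re) (r8 (cj u v).im)) * sg (e8N (r8 u.re) (r8 u.im))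
      * (sg (e8N (r8 v.re) (r8 v.im)) * sg (nm u % 4 == 3)) = sg (BB u v) := by
  obtain ⟨k, hk⟩ := r8_dvd u.re
  obtain ⟨l, hl⟩ := r8_dvd u.im
  obtain ⟨k', hk'⟩ := r8_dvd v.re
  obtain ⟨l', hl'⟩ := r8_dvd v.im
  have e1 : r8 (cj u v).re = (r8 u.re * r8 v.re + r8 u.im * r8 v.im
      + 7 * (r8 u.im * r8 v.re)) % 8 := by
    apply r8_of
    refine ⟨r8 u.re * k' + k * r8 v.re + 8 * k * k' + r8 u.im * l' + l * r8 v.im + 8 * l * l'
      - r8 u.im * r8 v.re - r8 u.im * k' - l * r8 v.re - 8 * l * k', ?_⟩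
    unfold cj
    simp only
    push_cast
    conv_lhs => rw [hk, hl, hk', hl']
    ring
  have e2 : r8 (cj u v).im = (r8 u.re * r8 v.im + 7 * (r8 u.im * r8 v.re)) % 8 := by
    apply r8_of
    refine ⟨r8 u.re * l' + k * r8 v.im + 8 * k * l'
      - r8 u.im * r8 v.re - r8 u.im * k' - l * r8 v.re - 8 * l * k', ?_⟩
    unfold cj
    simp only
    push_cast
    conv_lhs => rw [hk, hl, hk', hl']
    ring
  have ou : n8 (r8 u.re) (r8 u.im) % 2 = 1 := by
    rw [n8_eq]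
    have := Nat.odd_iff.1 hu
    omega
  have ov : n8 (r8 v.re) (r8 v.im) % 2 = 1 := by
    rw [n8_eq]
    have := Nat.odd_iff.1 hv
    omega
  have h := chk1 _ (r8_lt u.re) _ (r8_lt u.im) _ (r8_lt v.re) _ (r8_lt v.im) ou ov
  rw [← sg_xor, ← sg_xor, ← sg_xor]
  congr 1
  unfold BB
  rw [e1, e2, ← h]
  congr 2
  rw [n8_eq]
  have : nm u % 8 % 4 = nm u % 4 := by omega
  rw [this]

lemma dvd_of_coprime {x y n p : ℤ} (h : IsCoprime x y) (h1 : p ∣ n * x) (h2 : p ∣ n * y) : p ∣ n := by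
  obtain ⟨a, b, hab⟩ := h
  have : n = a * (n * x) + b * (n * y) := by linear_combination -n * hab
  rw [this]
  exact dvd_add (dvd_mul_of_dvd_right h1 _) (dvd_mul_of_dvd_right h2 _)

lemma common {u v : E} {p : ℤ} (hp : Prime p) (hD : p ∣ (cj u v).im) :
    (IsCoprime v.re v.im → p ∣ (nm v : ℤ) → p ∣ (nm u : ℤ)) ∧
    (IsCoprime u.re u.im → p ∣ (nm u : ℤ) → p ∣ (nm v : ℤ)) := by
  have hX : p ∣ ((nm u * nm v : ℕ) : ℤ) → p ∣ (cj u v).re := by
    intro h
    rw [← nm_cj, nm_cast] at h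
    have h1 : p ∣ (cj u v).re ^ 2 := by
      have : (cj u v).re ^ 2 = ((cj u v).re ^ 2 - (cj u v).re * (cj u v).im + (cj u v).im ^ 2)
        + (cj u v).im * ((cj u v).re - (cj u v).im) := by ring
      rw [this]
      exact dvd_add h (dvd_mul_of_dvd_left hD _)
    exact hp.dvd_of_dvd_pow h1
  constructor
  · intro hv h
    have h1 := hX (by rw [Nat.cast_mul]; exact dvd_mul_of_dvd_right h _)
    apply dvd_of_coprime hv
    · have : (nm u : ℤ) * v.re = u.re * (cj u v).re - u.im * (cj u v).im := by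
        rw [nm_cast]
        unfold cj
        simp only
        ring
      rw [this]
      exact dvd_sub (dvd_mul_of_dvd_right h1 _) (dvd_mul_of_dvd_right hD _)
    · have : (nm u : ℤ) * v.im = u.re * (cj u v).im + u.im * (cj u v).re
          - u.im * (cj u v).im := by
        rw [nm_cast]
        unfold cj
        simp only
        ring
      rw [this]
      exact dvd_sub (dvd_add (dvd_mul_of_dvd_right hD _) (dvd_mul_of_dvd_right h1 _))
        (dvd_mul_of_dvd_right hD _)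
  · intro hu h
    have h1 := hX (by rw [Nat.cast_mul]; exact dvd_mul_of_dvd_left h _)
    apply dvd_of_coprime hu
    · have : (nm v : ℤ) * u.re = v.re * (cj u v).re - v.re * (cj u v).im
          + v.im * (cj u v).im := by
        rw [nm_cast]
        unfold cj
        simp only
        ring
      rw [this]
      exact dvd_add (dvd_sub (dvd_mul_of_dvd_right h1 _) (dvd_mul_of_dvd_right hD _))
        (dvd_mul_of_dvd_right hD _)
    · have : (nm v : ℤ) * u.im = v.im * (cj u v).re - v.re * (cj u v).im := by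
        rw [nm_cast]
        unfold cj
        simp only
        ring
      rw [this]
      exact dvd_sub (dvd_mul_of_dvd_right h1 _) (dvd_mul_of_dvd_right hD _)

lemma jac_zero {D p : ℤ} {n : ℕ} (hn : n ≠ 0) (hp : Prime p) (h1 : p ∣ D) (h2 : p ∣ (n : ℤ)) :
    J(D | n) = 0 := by
  rw [jacobiSym.eq_zero_iff]
  refine ⟨hn, ?_⟩
  intro h
  have h3 : IsCoprime D (n : ℤ) := Int.isCoprime_iff_gcd_eq_one.2 h
  exact hp.not_isUnit (h3.isUnit_of_dvd' h1 h2)

lemma sg_ne (b : Bool) : sg b ≠ 0 := by cases b <;> decide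

lemma chi4 {n : ℕ} (hn : Odd n) : J(-1 | n) = sg (n % 4 == 3) := by
  rw [jacobiSym.at_neg_one hn]
  have hn2 := Nat.odd_iff.1 hn
  rcases (by omega : n % 4 = 1 ∨ n % 4 = 3) with h | h
  · rw [ZMod.χ₄_nat_one_mod_four h, h]; rfl
  · rw [ZMod.χ₄_nat_three_mod_four h, h]; rfl

/-- reciprocity for primitive elements -/
theorem recip {u v : E} (hu : IsCoprime u.re u.im) (hv : IsCoprime v.re v.im)
    (ou : Odd (nm u)) (ov : Odd (nm v)) {wu wv : ℤ} (h1 : (nm u : ℤ) ∣ u.re + u.im * wu)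
    (h2 : (nm v : ℤ) ∣ v.re + v.im * wv) :
    J(u.re + u.im * wv | nm v) = sg (BB u v) * J(v.re + v.im * wu | nm u) := by
  obtain ⟨D, hD⟩ : ∃ D, D = (cj u v).im := ⟨_, rfl⟩
  have hDe : D = u.re * v.im - u.im * v.re := hD
  have nu0 : nm u ≠ 0 := by
    intro h
    rw [h] at ou
    exact absurd ou (by decide)
  have nv0 : nm v ≠ 0 := by
    intro h
    rw [h] at ov
    exact absurd ov (by decide)
  have E1 : sg (e8N (r8 v.re) (r8 v.im)) * J(u.re + u.im * wv | nm v) = J(D | nm v) := by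
    rw [← jac_e8 v hv ov, ← jacobiSym.mul_left]
    apply jacobiSym.mod_left'
    have : D ≡ v.im * (u.re + u.im * wv) [ZMOD (nm v : ℤ)] := by
      rw [Int.modEq_iff_dvd]
      obtain ⟨c, hc⟩ := h2
      exact ⟨u.im * c, by rw [hDe]; linear_combination u.im * hc⟩
    exact this.symm
  have E2 : sg (e8N (r8 u.re) (r8 u.im)) * J(v.re + v.im * wu | nm u)
      = sg (nm u % 4 == 3) * J(D | nm u) := by
    rw [← jac_e8 u hu ou, ← jacobiSym.mul_left, ← chi4 ou, ← jacobiSym.mul_left]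
    apply jacobiSym.mod_left'
    have : -1 * D ≡ u.im * (v.re + v.im * wu) [ZMOD (nm u : ℤ)] := by
      rw [Int.modEq_iff_dvd]
      obtain ⟨c, hc⟩ := h1
      exact ⟨v.im * c, by rw [hDe]; linear_combination v.im * hc⟩
    exact this.symm
  by_cases hz : ∃ p : ℤ, Prime p ∧ p ∣ D ∧ (p ∣ (nm v : ℤ) ∨ p ∣ (nm u : ℤ))
  · obtain ⟨p, hp, hpD, hpn⟩ := hz
    have hc := common hp (hD ▸ hpD)
    have q1 : p ∣ (nm v : ℤ) := by
      rcases hpn with h | h
      · exact h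
      · exact hc.2 hu h
    have q2 : p ∣ (nm u : ℤ) := by
      rcases hpn with h | h
      · exact hc.1 hv h
      · exact h
    rw [jac_zero nv0 hp hpD q1] at E1
    rw [jac_zero nu0 hp hpD q2, mul_zero] at E2
    rw [(mul_eq_zero.1 E1).resolve_left (sg_ne _), (mul_eq_zero.1 E2).resolve_left (sg_ne _),
      mul_zero]
  · have hcop : ∀ n : ℕ, n ≠ 0 → (∀ p : ℤ, Prime p → p ∣ D → ¬ p ∣ (n : ℤ)) →
        IsCoprime D (n : ℤ) := by
      intro n hn h
      rw [Int.isCoprime_iff_gcd_eq_one]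
      by_contra hne
      obtain ⟨q, hq, hqd⟩ := Nat.exists_prime_and_dvd hne
      have q1 : (q : ℤ) ∣ D := (Int.natCast_dvd_natCast.2 hqd).trans (Int.gcd_dvd_left _ _)
      have q2 : (q : ℤ) ∣ (n : ℤ) := (Int.natCast_dvd_natCast.2 hqd).trans (Int.gcd_dvd_right _ _)
      exact h q (Nat.prime_iff_prime_int.1 hq) q1 q2
    push Not at hz
    have cu := hcop (nm u) nu0 fun p hp hpD => (hz p hp hpD).2
    have cv := hcop (nm v) nv0 fun p hp hpD => (hz p hp hpD).1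
    have hw : IsCoprime (cj u v).re (cj u v).im := by
      rw [Int.isCoprime_iff_gcd_eq_one]
      by_contra hne
      obtain ⟨q, hq, hqd⟩ := Nat.exists_prime_and_dvd hne
      have q1 : (q : ℤ) ∣ (cj u v).re :=
        (Int.natCast_dvd_natCast.2 hqd).trans (Int.gcd_dvd_left _ _)
      have q2 : (q : ℤ) ∣ (cj u v).im :=
        (Int.natCast_dvd_natCast.2 hqd).trans (Int.gcd_dvd_right _ _)
      have hqp : Prime (q : ℤ) := Nat.prime_iff_prime_int.1 hq
      have q3 : (q : ℤ) ∣ (nm u : ℤ) * (nm v : ℤ) := by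
        rw [← Nat.cast_mul, ← nm_cj, nm_cast]
        have : (cj u v).re ^ 2 - (cj u v).re * (cj u v).im + (cj u v).im ^ 2
          = (cj u v).re * (cj u v).re + (cj u v).im * ((cj u v).im - (cj u v).re) := by ring
        rw [this]
        exact dvd_add (dvd_mul_of_dvd_left q1 _) (dvd_mul_of_dvd_left q2 _)
      have q4 := hz q hqp (hD ▸ q2)
      rcases hqp.dvd_or_dvd q3 with h | h
      · exact q4.2 h
      · exact q4.1 h
    have how : Odd (nm (cj u v)) := by rw [nm_cj]; exact ou.mul ov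
    have E3 := jac_e8 (cj u v) hw how
    haveI : NeZero (nm u) := ⟨nu0⟩
    haveI : NeZero (nm v) := ⟨nv0⟩
    rw [nm_cj, jacobiSym.mul_right, ← hD] at E3
    have E4 := e8_cj u v ou ov
    rw [← hD, ← E3] at E4
    have s2 : J(v.re + v.im * wu | nm u) * J(v.re + v.im * wu | nm u) = 1 := by
      have h5 : J(D | nm u) * J(D | nm u) = 1 := by
        rw [← sq]
        exact jacobiSym.sq_one (Int.isCoprime_iff_gcd_eq_one.1 cu)
      calc J(v.re + v.im * wu | nm u) * J(v.re + v.im * wu | nm u)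
          = (sg (e8N (r8 u.re) (r8 u.im)) * sg (e8N (r8 u.re) (r8 u.im))) *
            (J(v.re + v.im * wu | nm u) * J(v.re + v.im * wu | nm u)) := by rw [sg_sq, one_mul]
        _ = (sg (e8N (r8 u.re) (r8 u.im)) * J(v.re + v.im * wu | nm u)) *
            (sg (e8N (r8 u.re) (r8 u.im)) * J(v.re + v.im * wu | nm u)) := by ring
        _ = (sg (nm u % 4 == 3) * sg (nm u % 4 == 3)) * (J(D | nm u) * J(D | nm u)) := by
            rw [E2]; ring
        _ = 1 := by rw [sg_sq, h5, one_mul]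
    have hev := sg_sq (e8N (r8 v.re) (r8 v.im))
    have heu := sg_sq (e8N (r8 u.re) (r8 u.im))
    obtain ⟨a, ha⟩ : ∃ a, a = sg (e8N (r8 v.re) (r8 v.im)) := ⟨_, rfl⟩
    obtain ⟨b, hb⟩ : ∃ b, b = sg (e8N (r8 u.re) (r8 u.im)) := ⟨_, rfl⟩
    obtain ⟨c, hc⟩ : ∃ c, c = sg (nm u % 4 == 3) := ⟨_, rfl⟩
    obtain ⟨s, hs⟩ : ∃ s, s = J(u.re + u.im * wv | nm v) := ⟨_, rfl⟩
    obtain ⟨t, ht⟩ : ∃ t, t = J(v.re + v.im * wu | nm u) := ⟨_, rfl⟩
    have hcc : c * c = 1 := by rw [hc]; exact sg_sq _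
    rw [← ha, ← hs] at E1
    rw [← hb, ← ht, ← hc] at E2
    rw [← ha, ← hb, ← hc] at E4
    rw [← ha] at hev
    rw [← hb] at heu
    rw [← ht] at s2 ⊢
    rw [← hs, ← E4, ← E1]
    have E5 : J(D | nm u) = c * (b * t) := by
      calc J(D | nm u) = (c * c) * J(D | nm u) := by rw [hcc, one_mul]
        _ = c * (c * J(D | nm u)) := by ring
        _ = c * (b * t) := by rw [← E2]
    rw [E5]
    calc s = (c * c) * (b * b) * (t * t) * (a * a) * s := by rw [hcc, heu, s2, hev]; ring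
      _ = _ := by ring

end Pool.Agent.K1H89.Q3
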