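import Pool.Agent.K1H89.Q3.Rec2

/-! # The quadratic character of `α = 2^e g β` -/

set_option autoImplicit false

open scoped NumberTheorySymbols

namespace Pool.Agent.K1H89.Q3

open Pool.Agent.K1H79.Q3

lemma exists_w {u : E} (h : IsCoprime u.re u.im) :
    ∃ w : ℤ, (nm u : ℤ) ∣ u.re + u.im * w ∧ (nm u : ℤ) ∣ w ^ 2 + w + 1 := by
  have h1 : IsCoprime u.im (nm u : ℤ) := by
    rw [nm_cast]
    have h2 : IsCoprime u.im (u.re ^ 2) := h.symm.pow_right
    have h3 : u.re ^ 2 - u.re * u.im + u.im ^ 2 = u.re ^ 2 + u.im * (u.im - u.re) := by ring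
    rw [h3]
    exact h2.add_mul_left_right _
  obtain ⟨s, t, hst⟩ := h1
  refine ⟨-u.re * s, ⟨u.re * t, by linear_combination (-u.re) * hst⟩,
    ⟨s ^ 2 + t * (1 + s * u.im - u.re * s), ?_⟩⟩
  have hN := nm_cast u
  linear_combination (-s ^ 2) * hN + (u.re * s - 1 - s * u.im) * hst

/-- the linear form of `w` -/
def lw (w : ℤ) (z : E) : ℤ := z.re + z.im * w

lemma lw_mul (w : ℤ) (z z' : E) :
    lw w (z * z') = lw w z * lw w z' - z.im * z'.im * (w ^ 2 + w + 1) := by
  unfold lw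
  rw [QuadraticAlgebra.re_mul, QuadraticAlgebra.im_mul]
  ring

lemma lw_sub (w : ℤ) (z z' : E) : lw w (z - z') = lw w z - lw w z' := by
  unfold lw
  rw [QuadraticAlgebra.re_sub, QuadraticAlgebra.im_sub]
  ring

lemma lw_int (w a : ℤ) : lw w (a : E) = a := by
  unfold lw
  simp

lemma lw_modEq {w : ℤ} {n : ℕ} (h : (n : ℤ) ∣ w ^ 2 + w + 1) (z z' : E) :
    lw w (z * z') ≡ lw w z * lw w z' [ZMOD (n : ℤ)] := by
  rw [Int.modEq_iff_dvd, lw_mul]
  obtain ⟨c, hc⟩ := h
  exact ⟨z.im * z'.im * c, by rw [hc]; ring⟩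

/-- the ring homomorphism `ω ↦ w` -/
def homW (n : ℕ) (w : ℤ) (h : (n : ℤ) ∣ w ^ 2 + w + 1) : E →+* ZMod n where
  toFun z := ((lw w z : ℤ) : ZMod n)
  map_one' := by
    have h1 : lw w (1 : E) = 1 := by
      have := lw_int w 1
      simpa using this
    rw [h1, Int.cast_one]
  map_zero' := by
    unfold lw
    simp
  map_add' z z' := by
    unfold lw
    rw [QuadraticAlgebra.re_add, QuadraticAlgebra.im_add]
    push_cast
    ring
  map_mul' z z' := by
    rw [← Int.cast_mul]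
    exact (ZMod.intCast_eq_intCast_iff _ _ _).2 (lw_modEq h z z')

/-- `v ∣ z` in terms of the linear form -/
lemma dvd_iff {v : E} {w : ℤ} (h0 : nm v ≠ 0) (h1 : (nm v : ℤ) ∣ lw w v)
    (h2 : (nm v : ℤ) ∣ w ^ 2 + w + 1) (z : E) : v ∣ z ↔ (nm v : ℤ) ∣ lw w z := by
  constructor
  · rintro ⟨c, rfl⟩
    have h3 := lw_modEq h2 v c
    have h4 : (nm v : ℤ) ∣ lw w v * lw w c := dvd_mul_of_dvd_left h1 _
    have h5 := Int.modEq_iff_dvd.1 h3
    have h6 := dvd_sub h4 h5
    rwa [sub_sub_cancel] at h6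
  · intro h
    obtain ⟨c, hc⟩ := h1
    obtain ⟨d, hd⟩ := h2
    obtain ⟨f, hf⟩ := h
    unfold lw at hc hf
    obtain ⟨n, hn⟩ : ∃ n : ℤ, n = nm v := ⟨_, rfl⟩
    have hnv := nm_cast v
    rw [← hn] at hc hd hf hnv
    have hn0 : n ≠ 0 := by rw [hn]; exact_mod_cast h0
    obtain ⟨t1, ht1⟩ : ∃ t1, t1 = c * z.re - v.im * w * f - v.im * f + v.im * z.im * d := ⟨_, rfl⟩
    obtain ⟨t2, ht2⟩ : ∃ t2, t2 = c * z.im - v.im * f := ⟨_, rfl⟩
    have hX : v.re * z.re + v.im * z.im - v.im * z.re = n * t1 := by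
      rw [ht1]
      linear_combination z.re * hc - v.im * w * hf - v.im * hf + v.im * z.im * hd
    have hD : v.re * z.im - v.im * z.re = n * t2 := by
      rw [ht2]
      linear_combination z.im * hc - v.im * hf
    refine ⟨⟨t1, t2⟩, ?_⟩
    apply QuadraticAlgebra.ext
    · rw [QuadraticAlgebra.re_mul]
      simp only
      apply mul_left_cancel₀ hn0
      linear_combination z.re * hnv + v.re * hX - v.im * hD
    · rw [QuadraticAlgebra.im_mul]
      simp only
      apply mul_left_cancel₀ hn0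
      linear_combination z.im * hnv + v.re * hD + v.im * hX - v.im * hD

lemma coprime_of_nm {n : ℕ} (hn : n ≠ 0) {a : ℤ} (h : J(a | n) = 1) : IsCoprime a n := by
  rw [Int.isCoprime_iff_gcd_eq_one]
  by_contra hcon
  have h1 := (jacobiSym.eq_zero_iff (a := a) (b := n)).2 ⟨hn, hcon⟩
  rw [h1] at h
  exact absurd h (by norm_num)

/-- the factor which depends on residues modulo `8` -/
noncomputable def psi (e g : ℕ) (β z : E) : ℤ :=
  open Classical in
  if Odd (nm z) then J(2 | nm z) ^ e * (if g % 4 = 3 then J(-1 | nm z) else 1) * sg (BB β z) else 0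

lemma psi_mul (e g : ℕ) (β z z' : E) : psi e g β (z * z') = psi e g β z * psi e g β z' := by
  classical
  unfold psi
  by_cases h1 : Odd (nm z)
  · by_cases h2 : Odd (nm z')
    · rw [if_pos h1, if_pos h2, if_pos (by rw [nm_mul]; exact h1.mul h2), nm_mul]
      haveI : NeZero (nm z) := ⟨by intro h; rw [h] at h1; exact absurd h1 (by decide)⟩
      haveI : NeZero (nm z') := ⟨by intro h; rw [h] at h2; exact absurd h2 (by decide)⟩
      rw [jacobiSym.mul_right, jacobiSym.mul_right, BB_mul _ _ _ h1 h2, sg_xor, mul_pow]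
      split_ifs <;> ring
    · rw [if_neg h2, if_neg (by rw [nm_mul, Nat.odd_mul]; tauto), mul_zero]
  · rw [if_neg h1, if_neg (by rw [nm_mul, Nat.odd_mul]; tauto), zero_mul]

lemma abs_sg (b : Bool) : |((sg b : ℤ) : ℝ)| ≤ 1 := by cases b <;> simp [sg]

lemma abs_jac (a : ℤ) (n : ℕ) : |((J(a | n) : ℤ) : ℝ)| ≤ 1 := by
  rcases jacobiSym.trichotomy a n with h | h | h <;> rw [h] <;> simp

lemma psi_abs (e g : ℕ) (β z : E) : |((psi e g β z : ℤ) : ℝ)| ≤ 1 := by
  classical
  unfold psi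
  split_ifs with h1 h2
  · push_cast
    rw [abs_mul, abs_mul, abs_pow]
    exact mul_le_one₀ (mul_le_one₀ (pow_le_one₀ (abs_nonneg _) (abs_jac _ _)) (abs_nonneg _)
      (abs_jac _ _)) (abs_nonneg _) (abs_sg _)
  · push_cast
    rw [abs_mul, abs_mul, abs_pow, abs_one, mul_one]
    exact mul_le_one₀ (pow_le_one₀ (abs_nonneg _) (abs_jac _ _)) (abs_nonneg _) (abs_sg _)
  · simp

lemma r8_add (a k : ℤ) : r8 (a + 8 * k) = r8 a := by
  unfold r8
  omega

lemma int_mul_re (a : ℤ) (w : E) : ((a : E) * w).re = a * w.re := by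
  rw [QuadraticAlgebra.re_mul]
  simp

lemma int_mul_im (a : ℤ) (w : E) : ((a : E) * w).im = a * w.im := by
  rw [QuadraticAlgebra.im_mul]
  simp

lemma eight_mul_re (w : E) : (8 * w).re = 8 * w.re := by
  have h8 : (8 : E) = ((8 : ℤ) : E) := by norm_num
  rw [h8]
  exact int_mul_re 8 w

lemma eight_mul_im (w : E) : (8 * w).im = 8 * w.im := by
  have h8 : (8 : E) = ((8 : ℤ) : E) := by norm_num
  rw [h8]
  exact int_mul_im 8 w

lemma psi_per (e g : ℕ) (β z w : E) : psi e g β (z + 8 * w) = psi e g β z := by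
  classical
  have e1 : r8 (z + 8 * w).re = r8 z.re := by
    rw [QuadraticAlgebra.re_add, eight_mul_re, r8_add]
  have e2 : r8 (z + 8 * w).im = r8 z.im := by
    rw [QuadraticAlgebra.im_add, eight_mul_im, r8_add]
  have e3 : nm (z + 8 * w) % 8 = nm z % 8 := by rw [← n8_eq, ← n8_eq, e1, e2]
  unfold psi
  by_cases h : Odd (nm z)
  · have h' : Odd (nm (z + 8 * w)) := by
      rw [Nat.odd_iff] at h ⊢
      omega
    rw [if_pos h, if_pos h']
    have f1 : J(2 | nm (z + 8 * w)) = J(2 | nm z) := by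
      rw [jacobiSym.at_two h, jacobiSym.at_two h', ZMod.χ₈_nat_mod_eight, e3,
        ← ZMod.χ₈_nat_mod_eight]
    have f2 : J(-1 | nm (z + 8 * w)) = J(-1 | nm z) := by
      rw [chi4 h, chi4 h']
      congr 2
      omega
    have f3 : BB β (z + 8 * w) = BB β z := by
      unfold BB
      rw [e1, e2]
    rw [f1, f2, f3]
  · have h' : ¬ Odd (nm (z + 8 * w)) := by
      rw [Nat.odd_iff] at h ⊢
      omega
    rw [if_neg h, if_neg h']

/-- the quadratic character -/
noncomputable def chi (e g : ℕ) (β : E) (w : ℤ) (z : E) : ℤ :=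
  psi e g β z * (J(lw w z | nm β) * J(nm z | g))

lemma chi_mul {e g : ℕ} {β : E} {w : ℤ} (hw : (nm β : ℤ) ∣ w ^ 2 + w + 1) (z z' : E) :
    chi e g β w (z * z') = chi e g β w z * chi e g β w z' := by
  unfold chi
  rw [psi_mul, nm_mul, Nat.cast_mul, jacobiSym.mul_left,
    jacobiSym.mod_left' (lw_modEq hw z z'), jacobiSym.mul_left]
  ring

lemma XM_eq (M : ℕ) [NeZero M] (a : ℤ) : XM M (a : ZMod M) = ((J(a | M) : ℤ) : ℝ) := by
  unfold XM
  rw [ZMod.val_intCast, ← jacobiSym.mod_left]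

lemma XG_eq (g : ℕ) [NeZero g] (z : E) : XG g (redE g z) = ((J(nm z | g) : ℤ) : ℝ) := by
  have h : QuadraticAlgebra.norm (redE g z) = (((nm z : ℕ) : ℤ) : ZMod g) := by
    rw [nm_cast, QuadraticAlgebra.norm_def]
    unfold redE
    simp only [RingHom.coe_mk, MonoidHom.coe_mk, OneHom.coe_mk]
    push_cast
    ring
  unfold XG
  rw [h, ZMod.val_intCast, ← jacobiSym.mod_left]

lemma per_chi {e g : ℕ} {β : E} {w : ℤ} (hw : (nm β : ℤ) ∣ w ^ 2 + w + 1)
    (hgood : Good (nm β) g) : Per (nm β * g ^ 2) (fun z => ((chi e g β w z : ℤ) : ℝ)) := by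
  have hM : nm β ≠ 0 := by
    intro h
    have := hgood.1
    rw [h] at this
    exact absurd this (by decide)
  have hg : g ≠ 0 := by
    intro h
    have := hgood.2.1
    rw [h] at this
    exact absurd this (by decide)
  haveI : NeZero (nm β) := ⟨hM⟩
  haveI : NeZero g := ⟨hg⟩
  refine ⟨nm β, g, homW (nm β) w hw, fun z => ((psi e g β z : ℤ) : ℝ), hgood, rfl, ?_, ?_, ?_⟩
  · intro z v
    simp only
    rw [psi_per]
  · intro z
    exact psi_abs e g β z
  · intro z
    show ((chi e g β w z : ℤ) : ℝ) = (psi e g β z : ℝ)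
      * (XM (nm β) ((lw w z : ℤ) : ZMod (nm β)) * XG g (redE g z))
    rw [XM_eq, XG_eq]
    unfold chi
    push_cast
    ring

end Pool.Agent.K1H89.Q3
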