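import Pool.Agent.K1H89.Q3.Rec3

/-! # The values at primes -/

set_option autoImplicit false

open scoped NumberTheorySymbols

namespace Pool.Agent.K1H89.Q3

open Pool.Agent.K1H79.Q3

lemma int_dvd_iff (a : ℤ) (z : E) : (a : E) ∣ z ↔ a ∣ z.re ∧ a ∣ z.im := by
  constructor
  · rintro ⟨c, rfl⟩
    rw [int_mul_re, int_mul_im]
    exact ⟨dvd_mul_right _ _, dvd_mul_right _ _⟩
  · rintro ⟨⟨c, hc⟩, ⟨d, hd⟩⟩
    exact ⟨⟨c, d⟩, QuadraticAlgebra.ext (by rw [int_mul_re]; exact hc)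
      (by rw [int_mul_im]; exact hd)⟩

lemma re_int (a : ℤ) : ((a : E)).re = a := by simp

lemma im_int (a : ℤ) : ((a : E)).im = 0 := by simp

lemma lw_int_mul (w a : ℤ) (z : E) : lw w ((a : E) * z) = a * lw w z := by
  unfold lw
  rw [int_mul_re, int_mul_im]
  ring

lemma nm_int (a : ℤ) : ((nm (a : E) : ℕ) : ℤ) = a ^ 2 := by
  rw [nm_cast]
  simp

lemma mul_star_nm (b : E) : b * star b = ((nm b : ℤ) : E) := by
  rw [← QuadraticAlgebra.algebraMap_norm_eq_mul_star]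
  rw [nm, Int.natAbs_of_nonneg (norm_nonneg' b)]
  rfl

lemma prime_dvd_rat {π : E} (hπ : Prime π) : ∀ n : ℕ, n ≠ 0 → π ∣ ((n : ℤ) : E) →
    ∃ p : ℕ, p.Prime ∧ π ∣ ((p : ℤ) : E) := by
  intro n
  induction n using Nat.strong_induction_on with
  | _ n ih =>
    intro hn h
    have hn1 : n ≠ 1 := by
      rintro rfl
      rw [Nat.cast_one, Int.cast_one] at h
      exact hπ.not_isUnit (isUnit_of_dvd_one h)
    obtain ⟨p, hp, m, hm⟩ := Nat.exists_prime_and_dvd hn1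
    rw [hm, Nat.cast_mul, Int.cast_mul] at h
    rcases hπ.dvd_or_dvd h with h1 | h1
    · exact ⟨p, hp, h1⟩
    · have hm0 : m ≠ 0 := by
        rintro rfl
        omega
      refine ih m ?_ hm0 h1
      rw [hm]
      exact lt_mul_of_one_lt_left (Nat.pos_of_ne_zero hm0) hp.one_lt

theorem prime_class {π : E} (hπ : Prime π) :
    ((nm π).Prime ∧ IsCoprime π.re π.im) ∨
    ∃ p : ℕ, p.Prime ∧ ∃ ε : E, IsUnit ε ∧ π = ε * ((p : ℤ) : E) := by
  have h1 : π ∣ (((nm π : ℕ) : ℤ) : E) := ⟨star π, (mul_star_nm π).symm⟩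
  have h0 : nm π ≠ 0 := (nm_pos hπ.ne_zero).ne'
  obtain ⟨p, hp, c, hc⟩ := prime_dvd_rat hπ (nm π) h0 h1
  have h2 : nm π * nm c = p ^ 2 := by
    have h3 : ((nm (((p : ℤ) : E)) : ℕ) : ℤ) = ((nm π * nm c : ℕ) : ℤ) := by
      rw [hc, nm_mul]
    rw [nm_int] at h3
    exact_mod_cast h3.symm
  obtain ⟨k, hk, hk2⟩ := (Nat.dvd_prime_pow hp).1 ⟨nm c, h2.symm⟩
  have hk3 : k = 0 ∨ k = 1 ∨ k = 2 := by omega
  rcases hk3 with rfl | rfl | rfl
  · exfalso
    rw [pow_zero] at hk2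
    exact hπ.not_isUnit (isUnit_iff'.2 hk2)
  · left
    rw [pow_one] at hk2
    rw [hk2]
    refine ⟨hp, ?_⟩
    rw [Int.isCoprime_iff_gcd_eq_one]
    by_contra hne
    obtain ⟨q, hq, hqd⟩ := Nat.exists_prime_and_dvd hne
    have q1 : (q : ℤ) ∣ π.re := (Int.natCast_dvd_natCast.2 hqd).trans (Int.gcd_dvd_left _ _)
    have q2 : (q : ℤ) ∣ π.im := (Int.natCast_dvd_natCast.2 hqd).trans (Int.gcd_dvd_right _ _)
    have q3 : (q : ℤ) ^ 2 ∣ ((p : ℕ) : ℤ) := by
      rw [← hk2, nm_cast, sq (q : ℤ), sq π.re, sq π.im]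
      exact dvd_add (dvd_sub (mul_dvd_mul q1 q1) (mul_dvd_mul q1 q2)) (mul_dvd_mul q2 q2)
    have q4 : q ^ 2 ∣ p := by exact_mod_cast q3
    have q5 : q ∣ p := dvd_trans (dvd_pow_self q (by norm_num)) q4
    have q6 : q = p := (Nat.prime_dvd_prime_iff_eq hq hp).1 q5
    rw [q6] at q4
    have q7 := Nat.le_of_dvd hp.pos q4
    have q8 := hp.one_lt
    nlinarith
  · right
    have hc1 : nm c = 1 := by
      rw [hk2] at h2
      have : 0 < p ^ 2 := pow_pos hp.pos 2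
      nlinarith
    obtain ⟨u, hu⟩ := isUnit_iff'.2 hc1
    refine ⟨p, hp, ((u⁻¹ : Eˣ) : E), Units.isUnit _, ?_⟩
    rw [hc, ← hu, mul_comm π, Units.inv_mul_cancel_left]

lemma qr {g n : ℕ} (hg : Odd g) (hn : Odd n) :
    J(g | n) = (if g % 4 = 3 then J(-1 | n) else 1) * J(n | g) := by
  rw [← jacobiSym.quadratic_reciprocity_if (Nat.odd_iff.1 hg) (Nat.odd_iff.1 hn), chi4 hn]
  by_cases h1 : g % 4 = 3
  · by_cases h2 : n % 4 = 3
    · rw [if_pos ⟨h1, h2⟩, if_pos h1, h2]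
      simp [sg]
    · rw [if_neg (by tauto), if_pos h1]
      have : (n % 4 == 3) = false := by simpa using h2
      rw [this]
      simp [sg]
  · rw [if_neg (by tauto), if_neg h1, one_mul]

/-- the value at a prime of prime norm -/
theorem chi_split {e g : ℕ} {β π : E} {w v : ℤ} (hg : Odd g) (hβ : IsCoprime β.re β.im)
    (oβ : Odd (nm β)) (hw : (nm β : ℤ) ∣ lw w β) (hc : IsCoprime π.re π.im) (ho : Odd (nm π))
    (hv : (nm π : ℤ) ∣ lw v π) :
    chi e g β w π = J(lw v ((((2 ^ e * g : ℕ) : ℤ) : E) * β) | nm π) := by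
  have h1 := recip hβ hc oβ ho hw hv
  rw [lw_int_mul]
  push_cast
  rw [jacobiSym.mul_left, jacobiSym.mul_left, jacobiSym.pow_left, qr hg ho]
  unfold chi psi
  rw [if_pos ho]
  show _ = _ * J(β.re + β.im * v | nm π)
  rw [h1]
  unfold lw
  ring

/-- primes of prime norm -/
theorem isq_split {α π : E} {v : ℤ} (hp : (nm π).Prime) (hv1 : (nm π : ℤ) ∣ lw v π)
    (hv2 : (nm π : ℤ) ∣ v ^ 2 + v + 1) :
    (π ∣ α → J(lw v α | nm π) = 0) ∧
    (¬ π ∣ α → (∃ x : E, π ∣ x ^ 2 - α) → J(lw v α | nm π) = 1) ∧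
    (¬ π ∣ α → (¬ ∃ x : E, π ∣ x ^ 2 - α) → J(lw v α | nm π) = -1) := by
  haveI : Fact (nm π).Prime := ⟨hp⟩
  have hdv := dvd_iff hp.ne_zero hv1 hv2
  have hpp : Prime ((nm π : ℕ) : ℤ) := Nat.prime_iff_prime_int.1 hp
  refine ⟨?_, ?_, ?_⟩
  · intro h
    exact jac_zero hp.ne_zero hpp ((hdv α).1 h) (dvd_refl _)
  · rintro h ⟨x, hx⟩
    have h1 : (nm π : ℤ) ∣ lw v (x ^ 2) - lw v α := by
      rw [← lw_sub]
      exact (hdv _).1 hx
    have h2 : lw v (x ^ 2) ≡ lw v x * lw v x [ZMOD (nm π : ℤ)] := by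
      rw [sq]
      exact lw_modEq hv2 x x
    have h3 : lw v α ≡ lw v x ^ 2 [ZMOD (nm π : ℤ)] := by
      rw [sq]
      exact (Int.modEq_iff_dvd.2 h1).trans h2
    rw [jacobiSym.mod_left' h3]
    apply jacobiSym.sq_one'
    rw [← Int.isCoprime_iff_gcd_eq_one]
    refine ((hpp.coprime_iff_not_dvd).2 ?_).symm
    intro h4
    apply h
    rw [hdv]
    have h5 := Int.modEq_iff_dvd.1 h3
    have h6 := dvd_sub (dvd_pow h4 (by norm_num : (2 : ℕ) ≠ 0)) h5
    rwa [sub_sub_cancel] at h6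
  · intro h hx
    have h1 : IsCoprime (lw v α) (nm π : ℤ) :=
      ((hpp.coprime_iff_not_dvd).2 fun h4 => h ((hdv α).2 h4)).symm
    rcases jacobiSym.eq_one_or_neg_one (Int.isCoprime_iff_gcd_eq_one.1 h1) with h2 | h2
    · exfalso
      obtain ⟨r, hr⟩ := ZMod.isSquare_of_jacobiSym_eq_one h2
      obtain ⟨t, ht⟩ := ZMod.intCast_surjective r
      apply hx
      refine ⟨(t : E), (hdv _).2 ?_⟩
      rw [lw_sub, ← Int.cast_pow, lw_int, ← ZMod.intCast_eq_intCast_iff_dvd_sub, hr, ← ht]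
      push_cast
      ring
    · exact h2

/-- square roots modulo an inert prime -/
lemma root {p : ℕ} (hp : p.Prime) (hp2 : p ≠ 2) (hP : Prime ((p : ℤ) : E)) {α : E} {s : ℤ}
    (hs : (p : ℤ) ∣ (nm α : ℤ) - s ^ 2) (hα : ¬ ((p : ℤ) : E) ∣ α) :
    ∃ x : E, ((p : ℤ) : E) ∣ x ^ 2 - α := by
  haveI : Fact p.Prime := ⟨hp⟩
  have hpi : Prime (p : ℤ) := Nat.prime_iff_prime_int.1 hp
  have hodd : Odd p := hp.odd_of_ne_two hp2
  have hnα : ¬ (p : ℤ) ∣ (nm α : ℤ) := by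
    intro h
    have h1 : ((p : ℤ) : E) ∣ α * star α := by
      rw [mul_star_nm]
      exact map_dvd (Int.castRingHom E) h
    rcases hP.dvd_or_dvd h1 with h2 | h2
    · exact hα h2
    · apply hα
      rw [int_dvd_iff] at h2 ⊢
      obtain ⟨h3, h4⟩ := h2
      have e1 : (star α).im = -α.im := by simp
      have e2 : (star α).re = α.re - α.im := by simp; ring
      rw [e1, dvd_neg] at h4
      rw [e2] at h3
      have h5 := dvd_add h3 h4
      rw [sub_add_cancel] at h5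
      exact ⟨h5, h4⟩
  have hps : ¬ (p : ℤ) ∣ s := by
    intro h
    apply hnα
    have h1 := dvd_add hs (dvd_pow h (by norm_num : (2 : ℕ) ≠ 0))
    rwa [sub_add_cancel] at h1
  -- choice of the sign of `s`
  obtain ⟨s', hs', hr⟩ : ∃ s' : ℤ, (p : ℤ) ∣ (nm α : ℤ) - s' ^ 2 ∧
      ¬ (p : ℤ) ∣ 2 * α.re - α.im + 2 * s' := by
    by_cases h : (p : ℤ) ∣ 2 * α.re - α.im + 2 * s
    · refine ⟨-s, by rwa [neg_sq], ?_⟩
      intro h'
      have h1 := dvd_sub h h'
      have h2 : 2 * α.re - α.im + 2 * s - (2 * α.re - α.im + 2 * -s) = 2 * (2 * s) := by ring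
      rw [h2] at h1
      have h3 : ¬ (p : ℤ) ∣ 2 := by
        intro h4
        have h5 : p ∣ 2 := by exact_mod_cast h4
        exact hp2 ((Nat.prime_dvd_prime_iff_eq hp Nat.prime_two).1 h5)
      rcases hpi.dvd_or_dvd h1 with h4 | h4
      · exact h3 h4
      · rcases hpi.dvd_or_dvd h4 with h5 | h5
        · exact h3 h5
        · exact hps h5
    · exact ⟨s, hs, h⟩
  obtain ⟨r, hrr⟩ : ∃ r, r = 2 * α.re - α.im + 2 * s' := ⟨_, rfl⟩
  rw [← hrr] at hr
  have key : (α + (s' : E)) ^ 2 = α * (r : E) + ((s' ^ 2 - nm α : ℤ) : E) := by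
    have hn := nm_cast α
    apply QuadraticAlgebra.ext
    · simp only [sq, QuadraticAlgebra.re_mul, QuadraticAlgebra.re_add, QuadraticAlgebra.im_add,
        re_int, im_int]
      rw [hrr]
      linear_combination hn
    · simp only [sq, QuadraticAlgebra.im_mul, QuadraticAlgebra.re_add, QuadraticAlgebra.im_add,
        re_int, im_int]
      rw [hrr]
      ring
  have hdk : ((p : ℤ) : E) ∣ ((s' ^ 2 - nm α : ℤ) : E) := by
    apply map_dvd (Int.castRingHom E)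
    rw [← dvd_neg]
    rwa [neg_sub]
  have hw3 : ((⟨1, 2⟩ : E)) ^ 2 = ((-3 : ℤ) : E) := by
    apply QuadraticAlgebra.ext
    · rw [sq, QuadraticAlgebra.re_mul, re_int]
      norm_num
    · rw [sq, QuadraticAlgebra.im_mul, im_int]
      norm_num
  have hcop : IsCoprime r (p : ℤ) := ((hpi.coprime_iff_not_dvd).2 hr).symm
  -- a square root of `r` in `E` modulo `p`
  have hroot : ∀ (δ : E) (d ρ : ℤ), δ ^ 2 = (d : E) → (p : ℤ) ∣ d * r - ρ ^ 2 → ¬ (p : ℤ) ∣ ρ →
      ∃ x : E, ((p : ℤ) : E) ∣ x ^ 2 - α := by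
    intro δ d ρ hδ hρ hρ0
    obtain ⟨ρ', c, hc⟩ := ((hpi.coprime_iff_not_dvd).2 hρ0).symm
    refine ⟨(α + (s' : E)) * δ * (ρ' : E), ?_⟩
    have e1 : ((α + (s' : E)) * δ * (ρ' : E)) ^ 2 - α
        = (ρ' : E) ^ 2 * (d : E) * ((s' ^ 2 - nm α : ℤ) : E)
          + α * ((ρ' ^ 2 * (d * r - ρ ^ 2) + ((ρ' * ρ) ^ 2 - 1) : ℤ) : E) := by
      rw [mul_pow, mul_pow, key, hδ]
      push_cast
      ring
    rw [e1]
    apply dvd_add (dvd_mul_of_dvd_right hdk _)
    apply dvd_mul_of_dvd_right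
    apply map_dvd (Int.castRingHom E)
    apply dvd_add (dvd_mul_of_dvd_right hρ _)
    exact ⟨-c * (ρ' * ρ + 1), by linear_combination (ρ' * ρ + 1) * hc⟩
  rcases jacobiSym.eq_one_or_neg_one (Int.isCoprime_iff_gcd_eq_one.1 hcop) with h1 | h1
  · obtain ⟨t0, ht0⟩ := ZMod.isSquare_of_jacobiSym_eq_one h1
    obtain ⟨t, rfl⟩ := ZMod.intCast_surjective t0
    have h2 : (p : ℤ) ∣ 1 * r - t ^ 2 := by
      rw [one_mul, ← ZMod.intCast_eq_intCast_iff_dvd_sub, ht0]
      push_cast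
      ring
    refine hroot 1 1 t (by simp) h2 ?_
    intro h3
    apply hr
    have h4 := dvd_add h2 (dvd_pow h3 (by norm_num : (2 : ℕ) ≠ 0))
    rwa [sub_add_cancel, one_mul] at h4
  · have hm3 : J(-3 | p) = -1 := by
      have h3 : ¬ ((p : ℤ) : E) ∣ (⟨1, 2⟩ : E) := by
        rw [int_dvd_iff]
        intro h
        exact hpi.not_isUnit (isUnit_of_dvd_one h.1)
      rcases jacobiSym.trichotomy (-3) p with h | h | h
      · exfalso
        have h4 := (jacobiSym.eq_zero_iff.1 h).2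
        have h5 : (p : ℤ) ∣ -3 := by
          by_contra hcon
          exact h4 (Int.isCoprime_iff_gcd_eq_one.1 ((hpi.coprime_iff_not_dvd).2 hcon).symm)
        have h6 : ((p : ℤ) : E) ∣ (⟨1, 2⟩ : E) ^ 2 := by
          rw [hw3]
          exact map_dvd (Int.castRingHom E) h5
        exact h3 (hP.dvd_of_dvd_pow h6)
      · exfalso
        obtain ⟨t0, ht0⟩ := ZMod.isSquare_of_jacobiSym_eq_one h
        obtain ⟨t, rfl⟩ := ZMod.intCast_surjective t0
        have h4 : (p : ℤ) ∣ -3 - t ^ 2 := by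
          rw [← ZMod.intCast_eq_intCast_iff_dvd_sub, ht0]
          push_cast
          ring
        have h5 : ((p : ℤ) : E) ∣ ((⟨1, 2⟩ : E) - (t : E)) * ((⟨1, 2⟩ : E) + (t : E)) := by
          have e1 : ((⟨1, 2⟩ : E) - (t : E)) * ((⟨1, 2⟩ : E) + (t : E))
              = (((-3 - t ^ 2 : ℤ)) : E) := by
            have : ((⟨1, 2⟩ : E) - (t : E)) * ((⟨1, 2⟩ : E) + (t : E))
              = (⟨1, 2⟩ : E) ^ 2 - (t : E) ^ 2 := by ring
            rw [this, hw3]
            push_cast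
            ring
          rw [e1]
          exact map_dvd (Int.castRingHom E) h4
        have h6 : ¬ (p : ℤ) ∣ 2 := by
          intro h4
          have h5 : p ∣ 2 := by exact_mod_cast h4
          exact hp2 ((Nat.prime_dvd_prime_iff_eq hp Nat.prime_two).1 h5)
        rcases hP.dvd_or_dvd h5 with h7 | h7
        · rw [int_dvd_iff] at h7
          apply h6
          have := h7.2
          rw [QuadraticAlgebra.im_sub, QuadraticAlgebra.im_intCast] at this
          simpa using this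
        · rw [int_dvd_iff] at h7
          apply h6
          have := h7.2
          rw [QuadraticAlgebra.im_add, QuadraticAlgebra.im_intCast] at this
          simpa using this
      · exact h
    have h2 : J(-3 * r | p) = 1 := by
      rw [jacobiSym.mul_left, hm3, h1]
      norm_num
    obtain ⟨t0, ht0⟩ := ZMod.isSquare_of_jacobiSym_eq_one h2
    obtain ⟨t, rfl⟩ := ZMod.intCast_surjective t0
    have h3 : (p : ℤ) ∣ -3 * r - t ^ 2 := by
      rw [← ZMod.intCast_eq_intCast_iff_dvd_sub, ht0]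
      push_cast
      ring
    refine hroot ⟨1, 2⟩ (-3) t hw3 h3 ?_
    intro h4
    have h5 := dvd_add h3 (dvd_pow h4 (by norm_num : (2 : ℕ) ≠ 0))
    rw [sub_add_cancel] at h5
    have h6 := (coprime_of_nm hp.ne_zero h2)
    exact hpi.not_isUnit (h6.isUnit_of_dvd' h5 (dvd_refl _))

end Pool.Agent.K1H89.Q3
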